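import Pool.Agent.Helper73.HM.St

/-! # HM module NA: existence of atoms -/

namespace Pool.Agent.Helper22.HM.NA

open Ordinal Cardinal ZFSet Order Pool.Agent.Helper73.HODC Pool.Agent.Helper73.HE
  Pool.Agent.Helper73.HM

theorem Nd_sub {lam : Ordinal.{0}} {X : Set Ordinal.{0}} {α ζ a : Ordinal.{0}}
    (h : a ∈ Helper73.HM.Nd lam X α ζ) : a ∈ X ∧ a < lam := by
  rw [Helper73.HM.Nd] at h
  exact ⟨h.1, h.2.1⟩

theorem na (h1 : StLE) (h2 : StNE) (h3 : StND) (h4 : StNS) : StNA := by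
  classical
  intro κ₀ c X hc hc' hpow hX hS hns
  have hcof := reg_cof hc hc'
  obtain ⟨-, -, hself, heq⟩ := h2 c.ord X
  have hex : ∀ α ∈ X, α < c.ord → ∃ η < κ₀.ord, α ∈ Helper73.HM.Nd c.ord X α η ∧
      ¬ ∃ B, LeastOD c.ord (Helper73.HM.Spl c.ord (Helper73.HM.Nd c.ord X α η)) B := by
    intro α hα hαc
    have h5 : ∃ η < κ₀.ord, ¬ ∃ B, LeastOD c.ord (Helper73.HM.Spl c.ord (Helper73.HM.Nd c.ord X α η)) B := by
      by_contra h6
      push Not at h6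
      exact h4 κ₀ c X hc hc' hX hns α (hself α κ₀.ord hα hαc h6)
    obtain ⟨η, ⟨hη, h6⟩, hmin⟩ := WellFounded.has_min (wellFounded_lt (α := Ordinal.{0}))
      {η | η < κ₀.ord ∧ ¬ ∃ B, LeastOD c.ord (Helper73.HM.Spl c.ord (Helper73.HM.Nd c.ord X α η)) B} h5
    refine ⟨η, hη, hself α η hα hαc fun η' hη' => ?_, h6⟩
    by_contra h7
    exact hmin η' ⟨hη'.trans hη, h7⟩ hη'
  choose! η hη using hex
  -- the pigeonhole principle
  set Y : Type := Option κ₀.ord.ToType × Set κ₀.ord.ToType with hY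
  have hκ : κ₀ < c := (Cardinal.cantor κ₀).trans hpow
  have hYc : Cardinal.mk Y < c := by
    rw [hY, Cardinal.mk_prod, Cardinal.lift_id, Cardinal.lift_id, Cardinal.mk_option,
      Cardinal.mk_set, mk_toType, Cardinal.card_ord]
    refine Cardinal.mul_lt_of_lt hc.aleph0_le ?_ hpow
    exact Cardinal.add_lt_of_lt hc.aleph0_le hκ
      (Cardinal.one_lt_aleph0.trans_le hc.aleph0_le)
  let g : Ordinal.{0} → Y := fun α =>
    (if h : η α < κ₀.ord then some (ToType.mk ⟨_, h⟩) else none,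
      {z | ∃ ξ : Set.Iio κ₀.ord, ToType.mk ξ = z ∧ ξ.1 ∈ Helper73.HM.br c.ord X α})
  have hg : ∀ α α', α ∈ X → α' ∈ X → α < c.ord → α' < c.ord → g α = g α' →
      η α = η α' ∧ ∀ ξ < κ₀.ord, ξ ∈ Helper73.HM.br c.ord X α ↔ ξ ∈ Helper73.HM.br c.ord X α' := by
    intro α α' hα hα' hαc hαc' hgg
    have h5 := congrArg Prod.fst hgg
    have h6 := congrArg Prod.snd hgg
    simp only [g] at h5 h6
    rw [dif_pos (hη α hα hαc).1, dif_pos (hη α' hα' hαc').1] at h5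
    refine ⟨Subtype.ext_iff.1 (ToType.mk.injective (Option.some.inj h5)), fun ξ hξ => ?_⟩
    have h7 := Set.ext_iff.1 h6 (ToType.mk ⟨ξ, hξ⟩)
    simp only [Set.mem_setOf_eq] at h7
    constructor
    · intro h8
      obtain ⟨ξ', h9, h10⟩ := h7.1 ⟨⟨ξ, hξ⟩, rfl, h8⟩
      have h11 := ToType.mk.injective h9
      rw [h11] at h10
      exact h10
    · intro h8
      obtain ⟨ξ', h9, h10⟩ := h7.2 ⟨⟨ξ, hξ⟩, rfl, h8⟩
      have h11 := ToType.mk.injective h9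
      rw [h11] at h10
      exact h10
  obtain ⟨y, hy⟩ := stat_pigeon hc hc' hYc hS g
  obtain ⟨α₀, ⟨hα₀, hg₀⟩, -, hα₀c⟩ := hy _ (club_univ (isSuccLimit_of_cof hcof))
  obtain ⟨hη₀, hN₀, hL₀⟩ := hη α₀ hα₀ hα₀c
  refine ⟨Helper73.HM.Nd c.ord X α₀ (η α₀), ?_, fun a ha => Nd_sub ha, ?_, ?_⟩
  · have h5 := h3 c.ord X hX
    have h6 : DP (fun v => (v 0).rank ∈ Helper73.HM.Nd c.ord X α₀ (v 1).rank) :=
      dp_subst_at (Q := fun x v => (v 0).rank ∈ Helper73.HM.Nd c.ord X x (v 1).rank)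
        (h5.rename (fun n => if n = 0 then 1 else if n = 1 then 0 else n)) α₀
    exact dp_subst_at (Q := fun x v => (v 0).rank ∈ Helper73.HM.Nd c.ord X α₀ x)
      (h6.rename (fun n => if n = 0 then 1 else 0)) (η α₀)
  · refine hy.mono fun a ha hac => ?_
    obtain ⟨haX, hga⟩ := ha
    obtain ⟨h5, h6⟩ := hg a α₀ haX hα₀ hac hα₀c (hga.trans hg₀.symm)
    obtain ⟨h7, h8, -⟩ := hη a haX hac
    have h9 := heq a α₀ (η a) h8 (fun ξ hξ => h6 ξ (hξ.trans h7)) (η a) le_rfl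
    rw [h9, h5] at h8
    exact h8
  · intro B hB hBs hspl
    exact hL₀ ((h1.2 c.ord _) ⟨B, hB, hBs, hspl⟩)

end Pool.Agent.Helper22.HM.NA
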